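import Pool.Agent.Run7.h689.BH10

set_option autoImplicit false

/-!
# MP_112ba8_nt: level sets and all moments of zeta in Bohr sets

Let `S` be a finite set of primes, `θ_1, …, θ_m` real numbers, `u_p` (`p ∈ S`) and `v_1, …, v_m` complex numbers of
modulus one and `δ > 0`. The Bohr set is the set of the real `t` with `|p^(it) - u_p| < δ` for `p ∈ S` and
`|e^(i θ_j t) - v_j| < δ` for `j ≤ m`. The `θ_j` are assumed to be generic: no number `exp (Σ j_i θ_i)` with integers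
`j_i`, not all zero, is too close to rational numbers. This holds for almost every vector `θ`.

In every Bohr set the values of zeta have the expected distribution from below, in short intervals: for every `B` there
are `c, W > 0` such that for all `0 ≤ α < 1`, all large `T` and all `H` with `T / (log T)^α ≤ H ≤ T`

* for `|V| ≤ B log log T` the measure of the `t` in the Bohr set and in `[T, T + H]` with
  `|log |ζ(1/2 + it)| - V| ≤ W` is at least `c H exp (-V² / log log T) / √(log log T)`;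
* for real `k` with `|k| ≤ B` the integral of `|ζ(1/2 + it)|^(2k)` over the part of the Bohr set in `[T, T + H]` is at
  least `c H (log T)^(k²)`.
-/

namespace Pool.Agent.Results.MP_112ba8_nt.BohrSets

open Filter MeasureTheory

/-- The Bohr set: the real `t` with `|p^(it) - u_p| < δ` for all `p ∈ S` and `|e^(i θ_j t) - v_j| < δ` for all `j`. -/
def Bohr (S : Finset ℕ) (u : ℕ → ℂ) {m : ℕ} (θ : Fin m → ℝ) (v : Fin m → ℂ) (δ : ℝ) : Set ℝ :=
  {t | (∀ p ∈ S, ‖(p : ℂ) ^ (t * Complex.I) - u p‖ < δ) ∧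
    ∀ j, ‖Complex.exp (t * θ j * Complex.I) - v j‖ < δ}

/-- Generic frequencies: with some exponent `n`, for every nonzero integer vector `j` there is `c > 0` such that the
number `exp (Σ j_i θ_i)` has distance at least `c / b^n` from every fraction `a / b` of natural numbers, `b ≥ 1`. -/
def Generic {m : ℕ} (θ : Fin m → ℝ) : Prop :=
  ∃ n : ℕ, ∀ j : Fin m → ℤ, j ≠ 0 → ∃ c : ℝ, 0 < c ∧
    ∀ a b : ℕ, 1 ≤ b → c / (b : ℝ) ^ n ≤ |Real.exp (∑ i, j i * θ i) - a / b|

/-- The Gaussian weight `exp (-V² / log log T) / √(log log T)`. -/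
noncomputable def gauss (T V : ℝ) : ℝ :=
  Real.exp (-(V ^ 2 / Real.log (Real.log T))) / Real.sqrt (Real.log (Real.log T))

theorem result :
    (∀ (S : Finset ℕ) (u : ℕ → ℂ) (m : ℕ) (θ : Fin m → ℝ) (v : Fin m → ℂ) (δ B : ℝ),
      (∀ p ∈ S, p.Prime ∧ ‖u p‖ = 1) → Generic θ → (∀ j, ‖v j‖ = 1) → 0 < δ → 0 ≤ B →
      ∃ c W : ℝ, 0 < c ∧ 0 < W ∧ ∀ α : ℝ, 0 ≤ α → α < 1 → ∀ᶠ T : ℝ in atTop,
        ∀ H : ℝ, T / Real.log T ^ α ≤ H → H ≤ T →
          (∀ V : ℝ, |V| ≤ B * Real.log (Real.log T) → c * H * gauss T V ≤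
            volume.real {t ∈ Set.Icc T (T + H) ∩ Bohr S u θ v δ |
              Real.exp (V - W) ≤ ‖riemannZeta (1 / 2 + t * Complex.I)‖ ∧
                ‖riemannZeta (1 / 2 + t * Complex.I)‖ ≤ Real.exp (V + W)}) ∧
          ∀ k : ℝ, |k| ≤ B → ENNReal.ofReal (c * H * Real.log T ^ (k ^ 2)) ≤
            ∫⁻ t in Set.Icc T (T + H) ∩ Bohr S u θ v δ,
              ENNReal.ofReal (‖riemannZeta (1 / 2 + t * Complex.I)‖ ^ (2 * k))) ∧
    ∀ m : ℕ, ∀ᵐ θ : Fin m → ℝ, Generic θ := by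
  refine ⟨?_, Pool.Agent.Run7.h689.BH.ae_Gen⟩
  intro S u m θ v δ B hS hθ hv hδ hB
  obtain ⟨F, hF, hFA⟩ := Pool.Agent.Run7.h689.BH.apx_ex (fun p hp => (hS p hp).1) hθ u
    (fun p hp => (hS p hp).2) v hv hδ
  have hA : ∀ t, 0 < F t → t ∈ Bohr S u θ v δ := hFA
  have hmeas : MeasurableSet (Bohr S u θ v δ) := by
    have e : Bohr S u θ v δ = (⋂ p ∈ S, {t : ℝ | ‖(p : ℂ) ^ (t * Complex.I) - u p‖ < δ}) ∩
        ⋂ j, {t : ℝ | ‖Complex.exp (t * θ j * Complex.I) - v j‖ < δ} := by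
      ext t
      simp [Bohr]
    rw [e]
    refine MeasurableSet.inter (Finset.measurableSet_biInter _ fun p hp => ?_) (MeasurableSet.iInter fun j => ?_)
    · have hp0 : (p : ℂ) ≠ 0 := by exact_mod_cast (hS p hp).1.ne_zero
      have hc : Continuous fun t : ℝ => ‖(p : ℂ) ^ (t * Complex.I) - u p‖ :=
        ((Continuous.const_cpow (by fun_prop) (Or.inl hp0)).sub continuous_const).norm
      exact measurableSet_lt hc.measurable measurable_const
    · have hc : Continuous fun t : ℝ => ‖Complex.exp (t * θ j * Complex.I) - v j‖ := by fun_prop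
      exact measurableSet_lt hc.measurable measurable_const
  have hloc := Pool.Agent.Run7.h689.BH.loc_law hF hA
  obtain ⟨c₁, W, hc₁, hW, h1⟩ := hloc B hB
  obtain ⟨c₂, hc₂, h2⟩ := Pool.Agent.Run7.h689.BH.mom_of_loc hmeas hloc B hB
  refine ⟨min c₁ c₂, W, lt_min hc₁ hc₂, hW, fun α h0 h1' => ?_⟩
  filter_upwards [h1 α h0 h1', h2 α h0 h1', eventually_gt_atTop (1:ℝ)] with T hT1 hT2 hT H hH1 hH2
  have hL : 0 < Real.log T := Real.log_pos hT
  have hH0 : 0 ≤ H := by
    refine le_trans ?_ hH1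
    positivity
  refine ⟨fun V hV => ?_, fun k hk => ?_⟩
  · have h3 := hT1 H hH1 hH2 V hV
    have e : {t ∈ Set.Icc T (T + H) ∩ Bohr S u θ v δ |
              Real.exp (V - W) ≤ ‖riemannZeta (1 / 2 + t * Complex.I)‖ ∧
                ‖riemannZeta (1 / 2 + t * Complex.I)‖ ≤ Real.exp (V + W)} =
        {t ∈ Set.Icc T (T + H) | t ∈ Bohr S u θ v δ ∧ Real.exp (V - W) ≤ Pool.Agent.TH806.Xz t ∧
          Pool.Agent.TH806.Xz t ≤ Real.exp (V + W)} := by
      ext t
      constructor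
      · rintro ⟨⟨a1, a2⟩, a3⟩
        exact ⟨a1, a2, a3⟩
      · rintro ⟨a1, a2, a3⟩
        exact ⟨⟨a1, a2⟩, a3⟩
    rw [e]
    refine le_trans ?_ h3
    unfold gauss
    gcongr
    exact min_le_left _ _
  · refine le_trans (ENNReal.ofReal_le_ofReal ?_) (hT2 H hH1 hH2 k hk)
    gcongr
    exact min_le_right _ _

end Pool.Agent.Results.MP_112ba8_nt.BohrSets
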