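import Pool.Agent.Run7.h311.DM.Main

/-!
# Shifted moments of zeta in every weight `|R|²`: lower bounds of the order of the diagonal

Unconditionally, for every `m` there are positive numbers `δ`, `α`, `c` such that for every large `T`
there is a smooth partial sum `D(s) = ∑ V(n) n ^ (-s)` of zeta of length `T ^ α` (`0 ≤ V ≤ 1`,
`V(n) = 1` for `n ≤ T ^ (α/2)`, `V(n) = 0` for `n ≥ T ^ α`) with the following property: for all real
shifts `a_1, ..., a_m` with `|a_j| ≤ T/8` (repetitions allowed), every Dirichlet polynomial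
`R(t) = ∑ r(n) n ^ (- i t)` over integers `n ≤ T ^ δ` with arbitrary complex coefficients and every
interval `[U, U + H]` in `[T, 2T]` with `H ≥ T ^ (1 - δ)`, the integral of
`∏ |ζ(1/2 + i(t + a_j))|² |R(t)|²` over the interval is at least `c` times the integral of
`∏ |D(1/2 + i(t + a_j))|² |R(t)|²`, a diagonal sum.

The proof: with the weight `|∏ D_j R|²` of a short Dirichlet polynomial, at distance `B / log T` from
the line the product of zeta and a mollifier `M` is close to one outside a set of small measure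
(weighted mean square of Bohr-Landau-Selberg type for every weight), and `|D M|²` is bounded there on
average, so `|ζ|` is at least a constant times `|D|` on most of the weight; a Cauchy kernel carries
the integral to the critical line.
-/

open Filter Topology Complex

namespace Pool.Agent.Results.MP_112ba8_nt.DominationEveryWeight

/-- the partial sum of zeta with the coefficients `V` at the point `1/2 + it` -/
noncomputable def D (V : ℕ → ℝ) (N : ℕ) (t : ℝ) : ℂ :=
  ∑ n ∈ Finset.Icc 1 N, (V n : ℂ) * (n : ℂ) ^ (-(1 / 2 + t * I))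

/-- the Dirichlet polynomial `∑ r(n) n ^ (- i t)`, `n ≤ N` -/
noncomputable def R (r : ℕ → ℂ) (N : ℕ) (t : ℝ) : ℂ :=
  ∑ n ∈ Finset.Icc 1 N, r n * (n : ℂ) ^ (-(t * I))

lemma R_eq (r : ℕ → ℂ) (N : ℕ) (t : ℝ) : R r N t = N802.RP (Finset.Icc 1 N) r t := by
  unfold R N802.RP N802.TP
  refine Finset.sum_congr rfl fun n hn => ?_
  have hn0 : (n : ℂ) ≠ 0 := by
    have := (Finset.mem_Icc.1 hn).1
    exact_mod_cast (by omega : n ≠ 0)
  congr 1
  unfold N802.mn
  rw [Complex.cpow_def_of_ne_zero hn0, ← Complex.natCast_log]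
  congr 1
  rw [Nat.cast_one, Real.log_one]
  push_cast
  ring

lemma pt_eq (t a : ℝ) : R399.TW.pt (1 / 2) t + I * a = 1 / 2 + (t + a : ℝ) * I := by
  unfold R399.TW.pt
  push_cast
  ring

theorem result (m : ℕ) : ∃ δ α c T₀ : ℝ, 0 < δ ∧ 0 < α ∧ 0 < c ∧ ∀ T : ℝ, T₀ ≤ T →
    ∃ V : ℕ → ℝ, (∀ n, 0 ≤ V n ∧ V n ≤ 1) ∧ (∀ n : ℕ, (n : ℝ) ≤ T ^ (α / 2) → V n = 1) ∧
    (∀ n : ℕ, T ^ α ≤ n → V n = 0) ∧
    ∀ (a : Fin m → ℝ) (N : ℕ) (r : ℕ → ℂ) (U H : ℝ), (∀ j, |a j| ≤ T / 8) → (N : ℝ) ≤ T ^ δ →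
      T ≤ U → U + H ≤ 2 * T → T ^ (1 - δ) ≤ H →
      c * ∫ t in U..(U + H), (∏ j, ‖D V ⌊T ^ α⌋₊ (t + a j)‖ ^ 2) * ‖R r N t‖ ^ 2 ≤
        ∫ t in U..(U + H), (∏ j, ‖riemannZeta (1 / 2 + (t + a j : ℝ) * I)‖ ^ 2) *
          ‖R r N t‖ ^ 2 := by
  obtain ⟨δ, α, c, T0, hδ, hα, hc, h⟩ := Run7.h311.DM.domin m
  refine ⟨δ, α, c, max T0 1, hδ, hα, hc, fun T hT => ?_⟩
  have hTT0 : T0 ≤ T := (le_max_left _ _).trans hT
  have hT1 : 1 ≤ T := (le_max_right _ _).trans hT
  have hTp : 0 < T := by linarith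
  have hlogT : 0 ≤ Real.log T := Real.log_nonneg hT1
  obtain ⟨V, hV, hV1, hV0, hmain⟩ := h T hTT0
  refine ⟨fun n => V (Real.log n), fun n => hV _, fun n hn => ?_, fun n hn => ?_, ?_⟩
  · apply hV1
    rcases Nat.eq_zero_or_pos n with h0 | h0
    · rw [h0, Nat.cast_zero, Real.log_zero]
      positivity
    · rw [← Real.log_rpow hTp]
      exact Real.log_le_log (by exact_mod_cast h0) hn
  · apply hV0
    rw [← Real.log_rpow hTp]
    exact Real.log_le_log (by positivity) hn
  · intro a N r U H ha hN hU hUH hH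
    have hH0 : 0 ≤ H := le_trans (by positivity) hH
    have hS : N802.U.Len (Finset.Icc 1 N) (T ^ δ) := fun k hk => by
      rw [Finset.mem_Icc] at hk
      exact ⟨hk.1, (Nat.cast_le.2 hk.2).trans hN⟩
    have h1 := hmain a ha _ hS r U H hU hUH hH
    have eD : ∀ t x : ℝ, D (fun n => V (Real.log n)) ⌊T ^ α⌋₊ (t + x) =
        N802.WD.Dp V ⌊T ^ α⌋₊ (R399.TW.pt (1 / 2) t + I * x) := by
      intro t x
      rw [pt_eq]
      rfl
    rw [intervalIntegral.integral_of_le (by linarith), intervalIntegral.integral_of_le (by linarith),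
      ← MeasureTheory.integral_Icc_eq_integral_Ioc, ← MeasureTheory.integral_Icc_eq_integral_Ioc]
    simp only [R_eq, eD, ← pt_eq]
    exact h1

end Pool.Agent.Results.MP_112ba8_nt.DominationEveryWeight
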