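import Pool.Agent.Run7.h291.WN.A12
import Pool.Agent.Run7.h42.WN_MNB
import Pool.Agent.Run7.h772.WN_ZML

set_option autoImplicit false

/-!
# The moments of all orders of zeta in almost all windows near the critical line

Let `k > 0` be real, `θ > max (0, k² - 1)`. At distance `δ` from the critical line, as soon as `δ log T / log² (1/δ)` is
large, for almost all `t ∈ [0, T]` and all lengths `δ^(-θ) ≤ H ≤ δ^(-D)` at once the mean value of
`|ζ(1/2 + δ + iu)|^(2k)` over the window `[t, t + H]` is asymptotically `a(k) (2δ)^(-k²)`; and for all lengths `H ≥ δ^(-θ)`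
up to `T` at once the same holds if the points with `|ζ| > δ^(-V)` are left out, for every `V > k`.

Plan and assembly by helper291; the mean of the two-point function over long intervals (`S_MNB`) by helper42, the moments
of zeta without small primes near the line `1` (`S_ZML`) by helper772; the joint moments outside tiny sets are the
starting library `N748/MJ`, the maximal inequality is by helper311.
-/

namespace Pool.Agent.Results.MP_112ba8_nt.MomentsInWindows

open MeasureTheory Filter Topology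

/-- the arithmetic factor of the moment conjecture,
`a(k) = ∏_p (1 - 1/p)^(k²) ∑_m (k (k+1) ... (k+m-1) / m!)² p^(-m)` -/
noncomputable def ak (k : ℝ) : ℝ :=
  ∏' p : Nat.Primes, ((1 - 1 / (p : ℝ)) ^ (k ^ 2) *
    ∑' m : ℕ, (∏ i ∈ Finset.range m, (k + i) / ((i : ℝ) + 1)) ^ 2 * (1 / (p : ℝ)) ^ m)

/-- the modulus of zeta at distance `δ` from the critical line and height `u` -/
noncomputable def z (δ u : ℝ) : ℝ := ‖riemannZeta (1 / 2 + δ + u * Complex.I)‖

/-- the mean of `|ζ|^(2k)` over the window `[t, t + H]` -/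
noncomputable def M (k δ t H : ℝ) : ℝ := (1 / H) * ∫ u in Set.Icc t (t + H), z δ u ^ (2 * k)

/-- the mean of `|ζ|^(2k)` over the window `[t, t + H]` without the points where `|ζ| > c` -/
noncomputable def Mc (c k δ t H : ℝ) : ℝ :=
  (1 / H) * ∫ u in {u : ℝ | u ∈ Set.Icc t (t + H) ∧ z δ u ≤ c}, z δ u ^ (2 * k)

/-- the prediction -/
noncomputable def P (k δ : ℝ) : ℝ := ak k * (2 * δ) ^ (-(k ^ 2))

open Run7.h291.WN Pool.Agent.N748.MG

lemma conv {k δ : ℝ} (hδ : 0 < δ) (I : ℝ) : I / P k δ = (2 * δ) ^ (k ^ 2) / akR k * I := by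
  have h1 : P k δ = akR k * (2 * δ) ^ (-(k ^ 2)) := rfl
  have h2 := akp k
  have h3 : (0:ℝ) < (2 * δ) ^ (k ^ 2) := Real.rpow_pos_of_pos (by linarith) _
  rw [h1, Real.rpow_neg (by linarith)]
  field_simp

theorem result (k θ D V : ℝ) (hk : 0 < k) (hθ : 0 < θ) (hkθ : k ^ 2 - 1 < θ) (hV : k < V) (ε : ℝ) (hε : 0 < ε) :
    0 < ak k ∧ ∃ lam δ0 : ℝ, 0 < lam ∧ 0 < δ0 ∧ δ0 ≤ 1 / 16 ∧ ∀ᶠ T : ℝ in atTop, ∀ δ : ℝ, 0 < δ → δ ≤ δ0 →
      lam * Real.log (1 / δ) ^ 2 ≤ δ * Real.log T →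
      volume {t : ℝ | t ∈ Set.Icc 0 T ∧ ¬ (
        (∀ H : ℝ, δ ^ (-θ) ≤ H → H ≤ δ ^ (-D) → |M k δ t H / P k δ - 1| < ε) ∧
        (∀ H : ℝ, δ ^ (-θ) ≤ H → t + H ≤ T → |Mc (δ ^ (-V)) k δ t H / P k δ - 1| < ε))} ≤ ENNReal.ofReal (ε * T) := by
  have hM := Run7.h42.WN.mnb Run7.h772.zml
  have hθ' : max 1 (k ^ 2) - 1 < θ := by
    rw [sub_lt_iff_lt_add]
    exact max_lt (by linarith) (by linarith)
  refine ⟨akp k, ?_⟩
  have h1 := core hM k θ (max D 0) hk hθ' (le_max_right _ _) (min (ε / 2) ε) (lt_min (by positivity) hε)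
  have h2 := coreB hM k θ V hk hθ' hV (min (ε / 2) ε) (lt_min (by positivity) hε)
  have he1 : min (ε / 2) ε ≤ ε / 2 := min_le_left _ _
  have he2 : min (ε / 2) ε ≤ ε := min_le_right _ _
  refine (h1.and h2).mono ?_
  rintro T δ hT hδ hδ1 ⟨h1, h2⟩
  have hT0 : 0 < T := by linarith
  refine le_trans (measure_mono (t := {t : ℝ | 0 ≤ t ∧ t ≤ T ∧ ∃ H : ℝ, δ ^ (-θ) ≤ H ∧ H ≤ δ ^ (-(max D 0)) ∧
      min (ε / 2) ε ≤ |(1 / H) * (∫ u in t..(t + H), Zk k δ u) - 1|} ∪ {t : ℝ | 0 ≤ t ∧ ∃ H : ℝ, δ ^ (-θ) ≤ H ∧ t + H ≤ T ∧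
      min (ε / 2) ε ≤ |(1 / H) * (∫ u in t..(t + H), TZ k V δ u) - 1|}) ?_) ?_
  · rintro t ⟨⟨t0, t1⟩, ht⟩
    rw [not_and_or] at ht
    push Not at ht
    rcases ht with ⟨H, a1, a2, a3⟩ | ⟨H, a1, a2, a3⟩
    · left
      have hH : 0 < H := lt_of_lt_of_le (Real.rpow_pos_of_pos hδ _) a1
      refine ⟨t0, t1, H, a1, a2.trans ?_, ?_⟩
      · exact Real.rpow_le_rpow_of_exponent_ge hδ (by linarith) (neg_le_neg (le_max_left _ _))
      · refine he2.trans (a3.trans (le_of_eq ?_))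
        congr 2
        rw [conv hδ, intervalIntegral.integral_of_le (by linarith), ← integral_Icc_eq_integral_Ioc]
        unfold M Zk
        rw [integral_const_mul]
        unfold z mz pw
        ring
    · right
      have hH : 0 < H := lt_of_lt_of_le (Real.rpow_pos_of_pos hδ _) a1
      refine ⟨t0, H, a1, a2, ?_⟩
      refine he2.trans (a3.trans (le_of_eq ?_))
      congr 2
      rw [conv hδ, intervalIntegral.integral_of_le (by linarith), ← integral_Icc_eq_integral_Ioc]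
      have hmeas : MeasurableSet {u : ℝ | mz δ u ≤ δ ^ (-V)} :=
        measurableSet_le (TMA.cont hδ1).measurable measurable_const
      have e1 : ∀ u : ℝ, TZ k V δ u = {u : ℝ | mz δ u ≤ δ ^ (-V)}.indicator (fun u => Zk k δ u) u := by
        intro u
        unfold TZ
        rw [Set.indicator_apply]
        rfl
      simp_rw [e1]
      rw [setIntegral_indicator hmeas]
      unfold Mc Zk
      rw [integral_const_mul]
      have e2 : {u : ℝ | u ∈ Set.Icc t (t + H) ∧ z δ u ≤ δ ^ (-V)} =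
          Set.Icc t (t + H) ∩ {u : ℝ | mz δ u ≤ δ ^ (-V)} := rfl
      rw [e2]
      unfold z mz pw
      ring
  · refine (measure_union_le _ _).trans ((add_le_add h1 h2).trans ?_)
    have hq : 0 ≤ min (ε / 2) ε * T := by
      have : 0 < min (ε / 2) ε := lt_min (by positivity) hε
      positivity
    rw [← ENNReal.ofReal_add hq hq]
    refine ENNReal.ofReal_le_ofReal ?_
    nlinarith

end Pool.Agent.Results.MP_112ba8_nt.MomentsInWindows
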