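import Pool.Agent.Run7.h311.CM.LinM

/-!
# Shifted moments of zeta of all real orders: the conjectured order, off one universally negligible set

For `A ≥ 1` and `ε > 0` there are positive numbers `δ, W, c, C` such that for all large `T` there is ONE
measurable set `G` of reals with the following properties. Write `B(t) = ∑_{n ≤ N} b_n n ^ (-1/2-it)`.

* at every `t` in `G` the number `log |ζ(1/2+it)|` differs from `log |∏ (1 - p ^ (-1/2-it))^(-1)|`
  (product over the primes `p ≤ T ^ δ`) by at most `W`;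
* the complement of `G` is negligible relative to EVERY Dirichlet polynomial `B` of length `T ^ δ` with
  arbitrary complex coefficients, after every shift: the part of `∫_T^{2T} |B(t)|² dt` over the `t` with
  `t + α` outside `G` is at most `ε ∫_T^{2T} |B(t)|² dt`, `|α| ≤ T/2`;
* for all real exponents `k_1, ..., k_n` (positive or negative) and all real shifts `α_1, ..., α_n` with
  `n ≤ A`, `∑ |k_j| ≤ A`, `|α_j| ≤ T/2`, the integral of `∏ |ζ(1/2 + i(t+α_j))| ^ (2k_j)` over the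
  `t` in `[T, 2T]` with all `t + α_j` in `G` lies between `c` and `C` times
  `T ∏_{i,j} |ζ(1 + 1/log T + i(α_i - α_j))| ^ (k_i k_j)`, the order predicted for the full shifted moment;
* relative to every Dirichlet polynomial: there is one Dirichlet polynomial `E` of length at most `T ^ (1/8)`
  (depending on the exponents and the shifts) such that for all `B` of length at most `T ^ δ` the integral of
  `∏ |ζ(1/2 + i(t+α_j))| ^ (2k_j) |B(t)|²` over these `t` lies between `c` and `C` times `∫_T^{2T} |E B|²`.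
-/

set_option autoImplicit false

open Filter Topology MeasureTheory Complex

namespace Pool.Agent.Results.MP_112ba8_nt.RealOrdersEveryWeight

/-- the Dirichlet polynomial `∑ b_n n ^ (-1/2-it)`, `n ≤ N` -/
noncomputable def D (N : ℕ) (b : ℕ → ℂ) (t : ℝ) : ℂ :=
  ∑ n ∈ Finset.Icc 1 N, b n * (n : ℂ) ^ (-(1 / 2 + t * I))

/-- `∑ |b_n|² / n`, `n ≤ N` -/
noncomputable def norm2 (N : ℕ) (b : ℕ → ℂ) : ℝ := ∑ n ∈ Finset.Icc 1 N, ‖b n‖ ^ 2 / n

/-- zeta on the critical line -/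
noncomputable def z (t : ℝ) : ℂ := riemannZeta (1 / 2 + t * I)

/-- the logarithm of the modulus of the Euler product over the primes `p ≤ X` at `1/2 + it` -/
noncomputable def eulerLog (X : ℕ) (t : ℝ) : ℝ :=
  -∑ p ∈ (Finset.Icc 1 X).filter Nat.Prime, Real.log ‖1 - (p : ℂ) ^ (-(1 / 2 + t * I))‖

/-- the predicted order of the shifted moment -/
noncomputable def predicted {n : ℕ} (k α : Fin n → ℝ) (T : ℝ) : ℝ :=
  ∏ i, ∏ j, ‖riemannZeta (1 + 1 / Real.log T + (α i - α j : ℝ) * I)‖ ^ (k i * k j)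

/-- the `t` in `[T, 2T]` with all `t + α_j` in `G` -/
def good (G : Set ℝ) (T : ℝ) {n : ℕ} (α : Fin n → ℝ) : Set ℝ :=
  {t : ℝ | t ∈ Set.Icc T (2 * T) ∧ ∀ j, t + α j ∈ G}

open Pool.Agent.Q97.UM Run7.h311.CM

/-- truncated coefficients -/
noncomputable def cut (N : ℕ) (b : ℕ → ℂ) (n : ℕ) : ℂ := if 1 ≤ n ∧ n ≤ N then b n else 0

lemma cut_supp (N : ℕ) (b : ℕ → ℂ) : ∀ n, cut N b n ≠ 0 → 1 ≤ n ∧ n ≤ N := by
  intro n hn
  unfold cut at hn
  by_contra h
  exact hn (if_neg h)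

lemma cut_self {N : ℕ} {b : ℕ → ℂ} (h : ∀ n, b n ≠ 0 → 1 ≤ n ∧ n ≤ N) : cut N b = b := by
  funext n
  unfold cut
  by_cases hn : 1 ≤ n ∧ n ≤ N
  · rw [if_pos hn]
  · rw [if_neg hn]
    by_contra h2
    exact hn (h n (Ne.symm h2))

lemma D_cut (N : ℕ) (b : ℕ → ℂ) (t : ℝ) : D N b t = dp N (cut N b) t := by
  unfold D dp
  refine Finset.sum_congr rfl fun n hn => ?_
  rw [Finset.mem_Icc] at hn
  unfold cut
  rw [if_pos hn]

lemma norm2_cut (N : ℕ) (b : ℕ → ℂ) : norm2 N b = N2 N (cut N b) := by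
  unfold norm2 N2
  refine Finset.sum_congr rfl fun n hn => ?_
  rw [Finset.mem_Icc] at hn
  unfold cut
  rw [if_pos hn]

lemma predicted_eq {n : ℕ} (k α : Fin n → ℝ) {T : ℝ} (hT : 1 < T) :
    predicted k α T = Real.exp (QF' k α T) := by
  unfold predicted QF'
  rw [Real.exp_sum]
  refine Finset.prod_congr rfl fun i _ => ?_
  rw [Real.exp_sum]
  refine Finset.prod_congr rfl fun j _ => ?_
  have hre : 1 ≤ (1 + 1 / Real.log T + (α i - α j : ℝ) * I : ℂ).re := by
    have hL : 0 < Real.log T := Real.log_pos hT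
    have e : (1 + 1 / Real.log T + (α i - α j : ℝ) * I : ℂ) =
        ((1 + 1 / Real.log T : ℝ) : ℂ) + ((α i - α j : ℝ) : ℂ) * I := by push_cast; ring
    rw [e, Complex.add_re, Complex.ofReal_re, Complex.re_ofReal_mul, Complex.I_re, mul_zero, add_zero]
    have : 0 < 1 / Real.log T := by positivity
    linarith
  rw [Real.rpow_def_of_pos (norm_pos_iff.2 (riemannZeta_ne_zero_of_one_le_re hre)), mul_comm]

lemma set_Icc_Ioc {T : ℝ} {P : ℝ → Prop} {F : ℝ → ℝ} :
    ∫ t in {t : ℝ | t ∈ Set.Icc T (2 * T) ∧ P t}, F t = ∫ t in Set.Ioc T (2 * T) ∩ {t : ℝ | P t}, F t := by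
  refine setIntegral_congr_set ?_
  have h : (Set.Icc T (2 * T) : Set ℝ) =ᵐ[volume] Set.Ioc T (2 * T) := Ioc_ae_eq_Icc.symm
  exact h.inter (ae_eq_refl {t : ℝ | P t})

/-- **shifted moments of all real orders, off one universally negligible set** -/
theorem result (A ε : ℝ) (hA : 1 ≤ A) (hε : 0 < ε) :
    ∃ δ W c C : ℝ, 0 < δ ∧ 0 < W ∧ 0 < c ∧ 0 < C ∧ ∀ᶠ T : ℝ in atTop,
      ∃ G : Set ℝ, MeasurableSet G ∧
      (∀ t ∈ G, z t ≠ 0 ∧ |Real.log ‖z t‖ - eulerLog ⌊T ^ δ⌋₊ t| ≤ W) ∧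
      (∀ (α : ℝ) (N : ℕ) (b : ℕ → ℂ), |α| ≤ T / 2 → (N : ℝ) ≤ T ^ δ →
        ∫ t in {t : ℝ | t ∈ Set.Icc T (2 * T) ∧ t + α ∉ G}, ‖D N b t‖ ^ 2 ≤
          ε * ∫ t in T..(2 * T), ‖D N b t‖ ^ 2) ∧
      (∀ (n : ℕ) (k α : Fin n → ℝ), (n : ℝ) ≤ A → ∑ j, |k j| ≤ A → (∀ j, |α j| ≤ T / 2) →
        c * (T * predicted k α T) ≤ ∫ t in good G T α, ∏ j, ‖z (t + α j)‖ ^ (2 * k j) ∧
        ∫ t in good G T α, ∏ j, ‖z (t + α j)‖ ^ (2 * k j) ≤ C * (T * predicted k α T)) ∧
      ∀ (n : ℕ) (k α : Fin n → ℝ), (n : ℝ) ≤ A → ∑ j, |k j| ≤ A → (∀ j, |α j| ≤ T / 2) →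
        ∃ (M : ℕ) (e : ℕ → ℂ), (M : ℝ) ≤ T ^ (1 / 8 : ℝ) ∧
        c * predicted k α T ≤ norm2 M e ∧ norm2 M e ≤ C * predicted k α T ∧
        ∀ (N : ℕ) (b : ℕ → ℂ), (N : ℝ) ≤ T ^ δ →
          c * ∫ t in T..(2 * T), ‖D M e t‖ ^ 2 * ‖D N b t‖ ^ 2 ≤
            ∫ t in good G T α, (∏ j, ‖z (t + α j)‖ ^ (2 * k j)) * ‖D N b t‖ ^ 2 ∧
          ∫ t in good G T α, (∏ j, ‖z (t + α j)‖ ^ (2 * k j)) * ‖D N b t‖ ^ 2 ≤
            C * ∫ t in T..(2 * T), ‖D M e t‖ ^ 2 * ‖D N b t‖ ^ 2 := by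
  classical
  have hA0 : 0 < A := by linarith
  obtain ⟨δ, κ, W, c, C, hδ, hκ, hκδ, hW, hc, hC, h⟩ := lin_main A (min (ε / 2) (1 / (4 * A))) hA
    (by positivity) (min_le_right _ _)
  refine ⟨δ, W, min (c / 2) (c ^ 2), max (2 * C) (C ^ 2), hδ, hW, by positivity, by positivity, ?_⟩
  filter_upwards [h, eventually_ge_atTop 16] with T hz hT
  have hT0 : 0 < T := by linarith
  have hT1 : 1 ≤ T := by linarith
  have hTδ : T ^ δ ≤ T ^ (1 / 4 : ℝ) := Real.rpow_le_rpow_of_exponent_le hT1 (by nlinarith)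
  set M := M9 (δ * Real.log T) κ with hM
  have hML : (M : ℝ) ≤ T ^ (26 * κ * δ) := M9_le hT0 (by linarith) hδ.le
  have hM8 : (M : ℝ) ≤ T ^ (1 / 8 : ℝ) := hML.trans (Real.rpow_le_rpow_of_exponent_le hT1 (by nlinarith))
  have h1δ : (1 : ℝ) ≤ T ^ δ := Real.one_le_rpow hT1 hδ.le
  have hgood : ∀ {n : ℕ} (α : Fin n → ℝ) (F : ℝ → ℝ), ∫ t in good (GGL δ κ A W T) T α, F t =
      ∫ t in SG δ κ A W T α, F t := fun α F => set_Icc_Ioc
  refine ⟨GGL δ κ A W T, GGL_meas δ κ A W T, fun t ht => ⟨ht.1, ht.2.1⟩, ?_, ?_, ?_⟩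
  · intro α N b hα hN
    rw [set_Icc_Ioc]
    simp only [D_cut]
    refine (hz.neg α hα N hN (cut N b) (cut_supp N b)).trans ?_
    obtain ⟨v1, -⟩ := Pool.Agent.Q84.UM.t_MVL T hT N (hN.trans hTδ) (cut N b)
    have h0 : 0 ≤ T * N2 N (cut N b) := mul_nonneg hT0.le (Pool.Agent.Q98.UM.N2_nonneg _ _)
    calc min (ε / 2) (1 / (4 * A)) * (T * N2 N (cut N b)) ≤ ε / 2 * (T * N2 N (cut N b)) :=
          mul_le_mul_of_nonneg_right (min_le_left _ _) h0
      _ = ε * (T / 2 * N2 N (cut N b)) := by ring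
      _ ≤ _ := mul_le_mul_of_nonneg_left v1 hε.le
  · intro n k α hn hk hα
    set e : ℕ → ℂ := ec δ κ T k α with he
    set b1 : ℕ → ℂ := fun n => if n = 1 then 1 else 0 with hb1
    have hb1s : ∀ n, b1 n ≠ 0 → 1 ≤ n ∧ n ≤ 1 := by
      intro n hn
      rw [hb1] at hn
      by_cases h : n = 1
      · omega
      · exact absurd (if_neg h) hn
    have hdp1 : ∀ t, dp 1 b1 t = 1 := by
      intro t
      unfold dp
      simp [hb1]
    have hcv : cv e b1 = fun n => if n = 0 then 0 else e n := by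
      funext n
      unfold cv
      by_cases hn : n = 0
      · subst hn
        simp
      · rw [if_neg hn, Finset.sum_eq_single (n, 1)]
        · simp [hb1]
        · intro p hp hpn
          rw [Nat.mem_divisorsAntidiagonal] at hp
          have : p.2 ≠ 1 := fun h => hpn (by
            rw [h, mul_one] at hp
            exact Prod.ext hp.1 h)
          simp [hb1, this]
        · intro h
          exact absurd (Nat.mem_divisorsAntidiagonal.2 ⟨by simp, hn⟩) h
    have hN2 : N2 (M * 1) (cv e b1) = N2 M e := by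
      rw [mul_one, hcv]
      unfold N2
      refine Finset.sum_congr rfl fun n hn => ?_
      have : n ≠ 0 := by
        have := (Finset.mem_Icc.1 hn).1
        omega
      simp [this]
    obtain ⟨m1, m2⟩ := hz.mom n k α hn hk hα 1 (by exact_mod_cast h1δ) b1 hb1s
    rw [← he, ← hM, hN2] at m1 m2
    obtain ⟨hl, hh⟩ := hz.ord n k α hk
    rw [← he, ← hM, ← predicted_eq k α (by linarith)] at hl hh
    simp only [hdp1, norm_one, one_pow, mul_one] at m1 m2
    rw [hgood]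
    have hx : 0 ≤ T * predicted k α T := by
      rw [predicted_eq k α (by linarith)]
      positivity
    constructor
    · refine le_trans ?_ m1
      calc min (c / 2) (c ^ 2) * (T * predicted k α T)
          ≤ c ^ 2 * (T * predicted k α T) := mul_le_mul_of_nonneg_right (min_le_right _ _) hx
        _ = c * (T * (c * predicted k α T)) := by ring
        _ ≤ _ := by gcongr
    · refine m2.trans ?_
      calc C * (T * N2 M e) ≤ C * (T * (C * predicted k α T)) := by gcongr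
        _ = C ^ 2 * (T * predicted k α T) := by ring
        _ ≤ _ := mul_le_mul_of_nonneg_right (le_max_right _ _) hx
  · intro n k α hn hk hα
    set e : ℕ → ℂ := ec δ κ T k α with he
    have hes := hz.supp n k α
    rw [← he, ← hM] at hes
    obtain ⟨hl, hh⟩ := hz.ord n k α hk
    rw [← he, ← hM, ← predicted_eq k α (by linarith)] at hl hh
    have hpp : 0 ≤ predicted k α T := by
      rw [predicted_eq k α (by linarith)]
      positivity
    refine ⟨M, e, hM8, ?_, ?_, fun N b hN => ?_⟩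
    · rw [norm2_cut, cut_self hes]
      refine le_trans (mul_le_mul_of_nonneg_right (min_le_left _ _) hpp) (le_trans ?_ hl)
      nlinarith
    · rw [norm2_cut, cut_self hes]
      refine hh.trans (mul_le_mul_of_nonneg_right ?_ hpp)
      exact le_trans (by linarith) (le_max_left _ _)
    · obtain ⟨m1, m2⟩ := hz.mom n k α hn hk hα N hN (cut N b) (cut_supp N b)
      rw [← he, ← hM] at m1 m2
      have hFeq : ∀ t, ‖D M e t‖ ^ 2 * ‖D N b t‖ ^ 2 = ‖dp (M * N) (cv e (cut N b)) t‖ ^ 2 := fun t => by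
        rw [D_cut, D_cut, cut_self hes, ← Pool.Agent.Q84.UM.t_DPM.1 M N e (cut N b) t
          (Pool.Agent.Q98.UM.supp_zero hes) (Pool.Agent.Q98.UM.supp_zero (cut_supp N b)), norm_mul, mul_pow]
      have hMN : ((M * N : ℕ) : ℝ) ≤ T ^ (1 / 4 : ℝ) := by
        push_cast
        calc (M : ℝ) * N ≤ T ^ (1 / 8 : ℝ) * T ^ δ := mul_le_mul hM8 hN (Nat.cast_nonneg _) (by positivity)
          _ = T ^ (1 / 8 + δ) := by rw [← Real.rpow_add hT0]
          _ ≤ _ := Real.rpow_le_rpow_of_exponent_le hT1 (by nlinarith)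
      obtain ⟨v1, v2⟩ := Pool.Agent.Q84.UM.t_MVL T hT (M * N) hMN (cv e (cut N b))
      have hDz : ∀ t, ‖D N b t‖ = ‖dp N (cut N b) t‖ := fun t => by rw [D_cut]
      simp only [hFeq]
      rw [hgood]
      simp only [hDz]
      set I₀ := ∫ t in T..(2 * T), ‖dp (M * N) (cv e (cut N b)) t‖ ^ 2 with hI₀
      set n2 := N2 (M * N) (cv e (cut N b)) with hn2
      have hI0 : 0 ≤ I₀ := intervalIntegral.integral_nonneg (by linarith) fun t _ => by positivity
      constructor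
      · refine le_trans ?_ m1
        calc min (c / 2) (c ^ 2) * I₀ ≤ c / 2 * (2 * T * n2) :=
              mul_le_mul (min_le_left _ _) v2 hI0 (by positivity)
          _ = _ := by ring
      · refine m2.trans ?_
        calc C * (T * n2) = 2 * C * (T / 2 * n2) := by ring
          _ ≤ max (2 * C) (C ^ 2) * I₀ := by
              refine mul_le_mul (le_max_left _ _) v1 ?_ (by positivity)
              exact mul_nonneg (by positivity) (Pool.Agent.Q98.UM.N2_nonneg _ _)

end Pool.Agent.Results.MP_112ba8_nt.RealOrdersEveryWeight
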